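import Pool.Agent.H.MP_956d6c_ag.I

set_option autoImplicit false

namespace Pool.Agent.Results.MP_956d6c_ag.Classification
open Pool.Agent.H.MP_956d6c_ag

/-- Classification of the rational projective flows of `ℂ^k` (`k ≥ 2`, two distinct coordinates `b`, `z` being
singled out) up to conjugation by 1-homogeneous birational maps. -/
theorem result (k : ℕ) (b z : Fin k) (hb : b ≠ z) :
    IsFlow (RMap.id (Fin k)) ∧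
    (∀ d : Datum z, (∃ φ, Normal d φ) ∧ ∀ φ, Normal d φ → IsFlow φ ∧ ¬ Conj φ (RMap.id _)) ∧
    (∀ φ : RMap (Fin k), IsFlow φ → (∀ i, φ.P i = MvPolynomial.X i * φ.Q) ∨
      ∃ (d : Datum z) (ψ : RMap (Fin k)), Normal d ψ ∧ Conj φ ψ) ∧
    (∀ (d d' : Datum z) (φ φ' : RMap (Fin k)), Normal d φ → Normal d' φ' →
      (Conj φ φ' ↔ d.N = d'.N ∧ (d.N = 0 ∨ Nonempty (d.F ≃ₐ[ℂ] d'.F)))) ∧
    (∀ (N : ℕ) (E : Type) [Field E] [Algebra ℂ E],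
      (∃ d : Datum z, d.N = N ∧ Nonempty (E ≃ₐ[ℂ] d.F)) ↔ Nonempty (RatFunc E ≃ₐ[ℂ] Kf {i // i ≠ z})) ∧
    ∀ N : ℕ, ∃ d : Datum z, d.N = N ∧ d.u = cx b / cx z ∧
      d.F = IntermediateField.adjoin ℂ ((fun i => cx i / cx z) '' {i | i ≠ b ∧ i ≠ z}) ∧
      ∀ φ, Normal d φ → Gen fun p => φ.Reg p ∧ 1 + p z ≠ 0 ∧ φ.ev p = fun i =>
        if i = b then p b * (1 + p z) ^ ((N : ℤ) - 1) else p i / (1 + p z) := by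
  refine ⟨id_flow, fun d => ⟨?_, fun φ hφ => ?_⟩, fun φ hφ => or_iff_not_imp_left.mpr fun hn => ?_,
    fun d d' φ φ' h2 h4 => ?_, fun N E _ _ => ?_,
    fun N => ⟨⟨N, _, _, (std z b hb).1, (std z b hb).2⟩, rfl, rfl, rfl, fun φ hφ => ?_⟩⟩
  · obtain ⟨a, ha⟩ := d.ad.ex d.N
    obtain ⟨φ, hφ⟩ := ex_pull (σ := Fin k) a
    exact ⟨φ, normal_iff.mpr ⟨_, hφ, ha⟩⟩
  · obtain ⟨a, h1, h2⟩ := normal_iff.mp hφ
    exact ⟨⟨h2.transl d.ad h1, h2.bdry d.ad h1⟩, h2.not_id h1⟩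
  · obtain ⟨N, F, u, ψ, a, h1, h2, h3, h4⟩ := exhaust z b hb hφ hn
    exact ⟨⟨N, F, u, h1.1, h1.2⟩, ψ, normal_iff.mpr ⟨a, h2, h3⟩, h4⟩
  · obtain ⟨a, k1, k2⟩ := normal_iff.mp h2
    obtain ⟨a', k3, k4⟩ := normal_iff.mp h4
    obtain ⟨τ, hτ⟩ := ex_tau (σ := Fin k)
    exact (Iff.intro (of_conj hτ k1 k3) (conj_of hτ k1 k3)).trans (fc_iff hτ d.ad k2 d'.ad k4)
  · obtain ⟨e⟩ := K0_equiv z
    refine Iff.trans ⟨fun ⟨d, _, h⟩ => ⟨d.F, d.u, d.ad, h⟩, fun ⟨F, u, h1, h⟩ => ⟨⟨N, F, u, h1.1, h1.2⟩, rfl, h⟩⟩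
      ((abstr (K0 z)).trans ⟨fun ⟨a⟩ => ⟨a.trans e.symm⟩, fun ⟨a⟩ => ⟨a.trans e⟩⟩)
  · obtain ⟨a, h1, h2⟩ := normal_iff.mp hφ
    exact Nm.expl hb h2 h1

end Pool.Agent.Results.MP_956d6c_ag.Classification
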